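import Pool.Agent.T2H58.MR.Asym

/-!
# The minimum Ramsey number of a graph on `n` vertices without isolated vertices

We prove `f(n) ≤ n + log₂ n + 3` for all `n ≥ 2`; together with the lower bound of Burr and Erdős, which is
also proved here (`f(n) ≥ n + log₂ n - 3 log₂ log₂ n - 1` for `n ≥ 2 ^ 16`), this gives
`f(n) = n + (1 + o(1)) log₂ n`.

Upper bound.  Let `l₀, …, l_{k-1}` be the numbers of leaves of the stars of a star forest `H` on `n` vertices,
`n ≤ 2 ^ k + 2 k - 1`, where each star has a bit less than half of the vertices which are not in the larger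
stars.  Let `N = n + k + 2` and let the edges of `K_N` be coloured red and blue.  We choose vertices one after
the other and declare each of them to be the centre of the next red star or of the next blue star, so that for
each of the two colours Hall's condition for the existence of the (disjoint) sets of leaves holds with room
`k - a`, `a` being the number of centres of that colour.  In each round fix sets of leaves for the present red
stars and for the present blue stars, and let `R`, `B` be the sets of the vertices which are neither centres nor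
red leaves, respectively neither centres nor blue leaves.  Counting the edges between `R` and `B` we see that
some `v ∈ B` has at least `⌊|R|/2⌋` red neighbours in `R` or some `v ∈ R` has at least `⌊|B|/2⌋` blue neighbours
in `B`; this `v` is the next centre.  After at most `2 k - 1` rounds there are `k` centres of one colour.
-/

set_option autoImplicit false

open Filter Topology

namespace Pool.Agent.Results.MP_624632_co.LogExcess

/-- Every colouring of the edges of `K_N` with two colours contains a monochromatic subgraph isomorphic to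
`H`.  (The values of `c` on the diagonal of `Sym2` play no role.) -/
def Arrows (N : ℕ) {W : Type} (H : SimpleGraph W) : Prop :=
  ∀ c : Sym2 (Fin N) → Bool, ∃ (b : Bool) (φ : W → Fin N), Function.Injective φ ∧
    ∀ u v, H.Adj u v → c s(φ u, φ v) = b

/-- The Ramsey number `r(H)`. -/
noncomputable def ramseyNumber {W : Type} (H : SimpleGraph W) : ℕ := sInf {N : ℕ | Arrows N H}

/-- The Ramsey numbers of the graphs with exactly `n` vertices and without isolated vertices. -/
def ramseyNumbers (n : ℕ) : Set ℕ :=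
  {r : ℕ | ∃ H : SimpleGraph (Fin n), (∀ v, ∃ w, H.Adj v w) ∧ ramseyNumber H = r}

/-- `f(n)`, the minimum of `r(H)` over the graphs `H` with exactly `n` vertices and no isolated vertex. -/
noncomputable def f (n : ℕ) : ℕ := sInf (ramseyNumbers n)

theorem isLeast_ramseyNumber (n : ℕ) (H : SimpleGraph (Fin n)) :
    IsLeast {N : ℕ | Arrows N H} (ramseyNumber H) := by
  obtain ⟨N, hN⟩ := Pool.Agent.T2H58.MR.exists_arrows H
  exact ⟨Nat.sInf_mem (s := {N : ℕ | Arrows N H}) ⟨N, hN⟩, fun M hM => Nat.sInf_le hM⟩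

theorem isLeast_f (n : ℕ) (hn : 2 ≤ n) : IsLeast (ramseyNumbers n) (f n) := by
  obtain ⟨H, N, h1, -, -⟩ := Pool.Agent.T2H58.MR.upper n hn
  exact ⟨Nat.sInf_mem (s := ramseyNumbers n) ⟨_, H, h1, rfl⟩, fun M hM => Nat.sInf_le hM⟩

theorem f_upper (n : ℕ) (hn : 2 ≤ n) : (f n : ℝ) ≤ n + Real.logb 2 n + 3 := by
  obtain ⟨H, N, h1, h2, h3⟩ := Pool.Agent.T2H58.MR.upper n hn
  have h4 : f n ≤ ramseyNumber H := (isLeast_f n hn).2 ⟨H, h1, rfl⟩
  have h5 : ramseyNumber H ≤ N := (isLeast_ramseyNumber n H).2 h2
  have h6 : (f n : ℝ) ≤ N := by exact_mod_cast h4.trans h5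
  exact h6.trans h3

theorem f_lower (n : ℕ) (hn : 2 ^ 16 ≤ n) :
    n + Real.logb 2 n - 3 * Real.logb 2 (Real.logb 2 n) - 1 ≤ (f n : ℝ) := by
  obtain ⟨H, h1, h2⟩ := (isLeast_f n (le_trans (by norm_num) hn)).1
  rw [← h2]
  exact Pool.Agent.T2H58.MR.lower n hn H h1 _ (isLeast_ramseyNumber n H).1

theorem f_asymp : Tendsto (fun n : ℕ => ((f n : ℝ) - n) / Real.logb 2 n) atTop (𝓝 1) := by
  have hL : Tendsto (fun n : ℕ => Real.logb 2 (n : ℝ)) atTop atTop :=
    (Real.tendsto_logb_atTop (by norm_num)).comp tendsto_natCast_atTop_atTop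
  have h0 : Tendsto (fun x : ℝ => Real.log x / x) atTop (𝓝 0) :=
    Real.isLittleO_log_id_atTop.tendsto_div_nhds_zero
  have h1 : Tendsto (fun x : ℝ => x⁻¹) atTop (𝓝 0) := tendsto_inv_atTop_zero
  have hlow : Tendsto (fun x : ℝ => 1 - 3 / Real.log 2 * (Real.log x / x) - x⁻¹) atTop (𝓝 1) := by
    have := ((h0.const_mul (3 / Real.log 2)).const_sub 1).sub h1
    simpa using this
  have hup : Tendsto (fun x : ℝ => 1 + 3 * x⁻¹) atTop (𝓝 1) := by
    have := (h1.const_mul 3).const_add 1
    simpa using this
  refine tendsto_of_tendsto_of_tendsto_of_le_of_le' (hlow.comp hL) (hup.comp hL) ?_ ?_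
  · filter_upwards [eventually_ge_atTop (2 ^ 16), hL.eventually_gt_atTop 0] with n hn hpos
    have h2 := f_lower n hn
    simp only [Function.comp_apply]
    rw [le_div_iff₀ hpos]
    have h3 : (1 - 3 / Real.log 2 * (Real.log (Real.logb 2 n) / Real.logb 2 n) - (Real.logb 2 n)⁻¹) *
        Real.logb 2 n = Real.logb 2 n - 3 * Real.logb 2 (Real.logb 2 n) - 1 := by
      have h4 : Real.logb 2 (Real.logb 2 n) = Real.log (Real.logb 2 n) / Real.log 2 := rfl
      rw [h4]
      field_simp
    rw [h3]
    linarith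
  · filter_upwards [eventually_ge_atTop 2, hL.eventually_gt_atTop 0] with n hn hpos
    have h2 := f_upper n hn
    simp only [Function.comp_apply]
    rw [div_le_iff₀ hpos]
    have h3 : (1 + 3 * (Real.logb 2 n)⁻¹) * Real.logb 2 n = Real.logb 2 n + 3 := by
      field_simp
    rw [h3]
    linarith

/-- `f(n) = n + (1 + o(1)) log₂ n`; more precisely `f(n) ≤ n + log₂ n + 3` for all `n ≥ 2` and
`f(n) ≥ n + log₂ n - 3 log₂ log₂ n - 1` for all `n ≥ 2 ^ 16`. -/
theorem result :
    (∀ (n : ℕ) (H : SimpleGraph (Fin n)), IsLeast {N : ℕ | Arrows N H} (ramseyNumber H)) ∧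
    (∀ n : ℕ, 2 ≤ n → IsLeast (ramseyNumbers n) (f n)) ∧
    (∀ n : ℕ, 2 ≤ n → (f n : ℝ) ≤ n + Real.logb 2 n + 3) ∧
    (∀ n : ℕ, 2 ^ 16 ≤ n → n + Real.logb 2 n - 3 * Real.logb 2 (Real.logb 2 n) - 1 ≤ (f n : ℝ)) ∧
    Tendsto (fun n : ℕ => ((f n : ℝ) - n) / Real.logb 2 n) atTop (𝓝 1) :=
  ⟨isLeast_ramseyNumber, isLeast_f, f_upper, f_lower, f_asymp⟩

end Pool.Agent.Results.MP_624632_co.LogExcess
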